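import Pool.Agent.Helper23.EC.DGoalsA

/-!
# MP_ecc237_nt, Part D, packet B2: coefficient bounds (D.6)
-/

set_option autoImplicit false

open EC237
open PowerSeries (coeff C X mk)

namespace Pool.Agent.Helper39.EC.D_B2

/-- the vector as a complex number -/
noncomputable def cz (k : ℤ × ℤ) : ℂ := ⟨(k.1 : ℝ), (k.2 : ℝ)⟩

theorem rk_eq (k : ℤ × ℤ) : rk k = ‖cz k‖ := by
  rw [rk, Complex.norm_def, Complex.normSq_apply]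
  simp only [cz]
  congr 1
  ring

theorem rk_add_le (k l : ℤ × ℤ) : rk (k + l) ≤ rk k + rk l := by
  have : cz (k + l) = cz k + cz l := by
    apply Complex.ext <;> simp [cz]
  rw [rk_eq, rk_eq, rk_eq, this]
  exact norm_add_le _ _

theorem one_le_rk {k : ℤ × ℤ} (h : k ≠ 0) : 1 ≤ rk k := by
  rw [rk]
  apply Real.one_le_sqrt.2
  have h2 : (1 : ℤ) ≤ k.1 ^ 2 + k.2 ^ 2 := by
    by_contra hlt
    push Not at hlt
    have h1 : k.1 ^ 2 = 0 := by nlinarith [sq_nonneg k.1, sq_nonneg k.2]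
    have h2 : k.2 ^ 2 = 0 := by nlinarith [sq_nonneg k.1, sq_nonneg k.2]
    exact h (Prod.ext (by simpa using h1) (by simpa using h2))
  exact_mod_cast h2

theorem abs_snd_le (k : ℤ × ℤ) : |(k.2 : ℝ)| ≤ rk k := by
  rw [rk_eq]
  exact Complex.abs_im_le_norm (cz k)

theorem cross (k l : ℤ × ℤ) : |(k.1 : ℝ) * l.2 - k.2 * l.1| ≤ rk k * rk l := by
  have h := Complex.abs_im_le_norm ((starRingEnd ℂ) (cz k) * cz l)
  rw [norm_mul, RCLike.norm_conj, ← rk_eq, ← rk_eq] at h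
  have e : ((starRingEnd ℂ) (cz k) * cz l).im = (k.1 : ℝ) * l.2 - k.2 * l.1 := by
    simp [cz, Complex.mul_im]
    ring
  rwa [e] at h

theorem coeff_gser (a α : ℂ) (p : ℕ) : coeff p (gser a α) = α ^ p * a ^ (p + 1) := by
  simp [gser]

/-- bound for the coefficients of a product -/
theorem prod_bound (a b α : ℂ) (R : ℝ) (ha : ‖a‖ ≤ R) (hb : ‖b‖ ≤ R) (hα : ‖α‖ ≤ 2)
    (j : ℕ) (hj : j ≤ 2) : ‖coeff j (gser a α * gser b α)‖ ≤ 12 * R ^ (j + 2) := by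
  have hR : 0 ≤ R := (norm_nonneg a).trans ha
  rw [PowerSeries.coeff_mul]
  refine (norm_sum_le _ _).trans ?_
  have step : ∀ p ∈ Finset.HasAntidiagonal.antidiagonal j,
      ‖coeff p.1 (gser a α) * coeff p.2 (gser b α)‖ ≤ 2 ^ j * R ^ (j + 2) := by
    intro p hp
    have hp' : p.1 + p.2 = j := Finset.HasAntidiagonal.mem_antidiagonal.1 hp
    rw [coeff_gser, coeff_gser, norm_mul, norm_mul, norm_mul, norm_pow, norm_pow, norm_pow,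
      norm_pow]
    have h1 : ‖α‖ ^ p.1 ≤ 2 ^ p.1 := pow_le_pow_left₀ (norm_nonneg _) hα _
    have h2 : ‖α‖ ^ p.2 ≤ 2 ^ p.2 := pow_le_pow_left₀ (norm_nonneg _) hα _
    have h3 : ‖a‖ ^ (p.1 + 1) ≤ R ^ (p.1 + 1) := pow_le_pow_left₀ (norm_nonneg _) ha _
    have h4 : ‖b‖ ^ (p.2 + 1) ≤ R ^ (p.2 + 1) := pow_le_pow_left₀ (norm_nonneg _) hb _
    calc _ ≤ (2 ^ p.1 * R ^ (p.1 + 1)) * (2 ^ p.2 * R ^ (p.2 + 1)) := by
          gcongr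
      _ = 2 ^ (p.1 + p.2) * R ^ (p.1 + p.2 + 2) := by ring
      _ = _ := by rw [hp']
  refine (Finset.sum_le_sum step).trans ?_
  rw [Finset.sum_const, Finset.Nat.card_antidiagonal, nsmul_eq_mul, ← mul_assoc]
  refine mul_le_mul_of_nonneg_right ?_ (by positivity)
  interval_cases j <;> norm_num

theorem XX_symm (w : ℂ) (v1 v2 : SV) : XX w v2 v1 = -XX w v1 v2 := by
  unfold XX
  ring

/-- the factorisation of `X` -/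
theorem XX_eq (hA1 : EC237.A1) (w : ℂ) (hw : 0 < w.re) (v1 v2 : SV) (h1 : v1.1 ≠ 0)
    (h2 : v2.1 ≠ 0) :
    XX w v1 v2 = (As w v1 * Bs w v1) * (As w v2 * Bs w v2) *
      (C (2 * Complex.I * w * ((v1.1.1 : ℂ) * v2.1.2 - v1.1.2 * v2.1.1)) +
        C (2 * Complex.I * w * ((v2.2 : ℂ) * v1.1.2 - v1.2 * v2.1.2)) * X) := by
  obtain ⟨-, hK, -⟩ := hA1 w hw
  obtain ⟨a1, b1⟩ := hK v1 h1
  obtain ⟨a2, b2⟩ := hK v2 h2
  have e : (C (2 * Complex.I * w * ((v1.1.1 : ℂ) * v2.1.2 - v1.1.2 * v2.1.1)) +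
        C (2 * Complex.I * w * ((v2.2 : ℂ) * v1.1.2 - v1.2 * v2.1.2)) * X : PowerSeries ℂ) =
      KBs w v1 * KAs w v2 - KAs w v1 * KBs w v2 := by
    unfold KAs KBs KA KB
    simp only [map_sub, map_mul, map_add, map_ofNat]
    ring
  rw [e]
  unfold XX
  have t1 : (As w v1 * Bs w v1) * (As w v2 * Bs w v2) * (KBs w v1 * KAs w v2) =
      (As w v1 * Bs w v2) * (KBs w v1 * Bs w v1) * (KAs w v2 * As w v2) := by ring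
  have t2 : (As w v1 * Bs w v1) * (As w v2 * Bs w v2) * (KAs w v1 * KBs w v2) =
      (Bs w v1 * As w v2) * (KAs w v1 * As w v1) * (KBs w v2 * Bs w v2) := by ring
  rw [mul_sub, t1, t2, a1, b1, a2, b2]
  ring

/-- half powers -/
theorem rpow_facts (x : ℝ) (hx : 0 < x) :
    (x ^ (1 / 2 : ℝ)) ^ 2 = x ∧ x ^ (-(1 / 2) : ℝ) = (x ^ (1 / 2 : ℝ))⁻¹ ∧
      x ^ (-1 : ℝ) = ((x ^ (1 / 2 : ℝ))⁻¹) ^ 2 ∧ x ^ (-(5 / 2) : ℝ) = ((x ^ (1 / 2 : ℝ))⁻¹) ^ 5 ∧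
      0 < x ^ (1 / 2 : ℝ) := by
  have h0 : 0 < x ^ (1 / 2 : ℝ) := Real.rpow_pos_of_pos hx _
  have h1 : (x ^ (1 / 2 : ℝ)) ^ 2 = x := by
    rw [← Real.rpow_natCast, ← Real.rpow_mul hx.le]
    norm_num
  refine ⟨h1, Real.rpow_neg hx.le _, ?_, ?_, h0⟩
  · rw [inv_pow, h1, Real.rpow_neg hx.le, Real.rpow_one]
  · rw [inv_pow, ← Real.rpow_natCast, ← Real.rpow_mul hx.le, Real.rpow_neg hx.le]
    norm_num

theorem coeff_GD (G : PowerSeries ℂ) (d0 d1 : ℂ) :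
    coeff 0 (G * (C d0 + C d1 * X)) = coeff 0 G * d0 ∧
    coeff 1 (G * (C d0 + C d1 * X)) = coeff 1 G * d0 + coeff 0 G * d1 ∧
    coeff 2 (G * (C d0 + C d1 * X)) = coeff 2 G * d0 + coeff 1 G * d1 := by
  have e : G * (C d0 + C d1 * X) = G * C d0 + G * C d1 * X := by ring
  rw [e]
  refine ⟨?_, ?_, ?_⟩
  · rw [map_add, PowerSeries.coeff_mul_C, PowerSeries.coeff_zero_mul_X]
    ring
  · rw [map_add, PowerSeries.coeff_mul_C, PowerSeries.coeff_succ_mul_X, PowerSeries.coeff_mul_C]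
  · rw [map_add, PowerSeries.coeff_mul_C, PowerSeries.coeff_succ_mul_X, PowerSeries.coeff_mul_C]

/-- coefficients of a product of two series -/
theorem coeff_EE (E F : PowerSeries ℂ) :
    coeff 0 (E * F) = coeff 0 E * coeff 0 F ∧
    coeff 1 (E * F) = coeff 0 E * coeff 1 F + coeff 1 E * coeff 0 F ∧
    coeff 2 (E * F) = coeff 0 E * coeff 2 F + coeff 1 E * coeff 1 F + coeff 2 E * coeff 0 F := by
  refine ⟨?_, ?_, ?_⟩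
  · simp [PowerSeries.coeff_mul]
  · rw [PowerSeries.coeff_mul, Finset.Nat.antidiagonal_succ]
    simp
  · rw [PowerSeries.coeff_mul, Finset.Nat.sum_antidiagonal_eq_sum_range_succ_mk]
    simp [Finset.sum_range_succ]

theorem G_bound (E F : PowerSeries ℂ) (K a b : ℝ) (hK : 0 ≤ K) (hb : 0 ≤ b) (hab : b ≤ a)
    (hE : ∀ j : ℕ, j ≤ 2 → ‖coeff j E‖ ≤ K * a ^ (j + 2))
    (hF : ∀ j : ℕ, j ≤ 2 → ‖coeff j F‖ ≤ K * b ^ (j + 2)) :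
    ‖coeff 0 (E * F)‖ ≤ K ^ 2 * (a ^ 2 * b ^ 2) ∧
    ‖coeff 1 (E * F)‖ ≤ 2 * K ^ 2 * (a ^ 3 * b ^ 2) ∧
    ‖coeff 2 (E * F)‖ ≤ 3 * K ^ 2 * (a ^ 4 * b ^ 2) := by
  have ha : 0 ≤ a := hb.trans hab
  obtain ⟨e0, e1, e2⟩ := coeff_EE E F
  have E0 : ‖coeff 0 E‖ ≤ K * a ^ 2 := hE 0 (by norm_num)
  have E1 : ‖coeff 1 E‖ ≤ K * a ^ 3 := hE 1 (by norm_num)
  have E2 : ‖coeff 2 E‖ ≤ K * a ^ 4 := hE 2 le_rfl
  have F0 : ‖coeff 0 F‖ ≤ K * b ^ 2 := hF 0 (by norm_num)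
  have F1 : ‖coeff 1 F‖ ≤ K * b ^ 3 := hF 1 (by norm_num)
  have F2 : ‖coeff 2 F‖ ≤ K * b ^ 4 := hF 2 le_rfl
  have pr : ∀ (x y : ℂ) (s t : ℝ), 0 ≤ s → ‖x‖ ≤ s → ‖y‖ ≤ t → ‖x * y‖ ≤ s * t := by
    intro x y s t hs hx hy
    rw [norm_mul]
    exact mul_le_mul hx hy (norm_nonneg _) hs
  have q1 : a ^ 2 * b ^ 3 ≤ a ^ 3 * b ^ 2 := by
    have : a ^ 2 * b ^ 2 * b ≤ a ^ 2 * b ^ 2 * a := by gcongr
    nlinarith
  have q2 : a ^ 2 * b ^ 4 ≤ a ^ 4 * b ^ 2 := by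
    have h2 : b ^ 2 ≤ a ^ 2 := by gcongr
    have : a ^ 2 * b ^ 2 * b ^ 2 ≤ a ^ 2 * b ^ 2 * a ^ 2 := by gcongr
    nlinarith
  have q3 : a ^ 3 * b ^ 3 ≤ a ^ 4 * b ^ 2 := by
    have : a ^ 3 * b ^ 2 * b ≤ a ^ 3 * b ^ 2 * a := by gcongr
    nlinarith
  have hK2 : 0 ≤ K ^ 2 := by positivity
  refine ⟨?_, ?_, ?_⟩
  · rw [e0]
    refine (pr _ _ _ _ (by positivity) E0 F0).trans (le_of_eq (by ring))
  · rw [e1]
    have h1 := pr _ _ _ _ (by positivity) E0 F1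
    have h2 := pr _ _ _ _ (by positivity) E1 F0
    have h3 := mul_le_mul_of_nonneg_left q1 hK2
    refine (norm_add_le _ _).trans ?_
    nlinarith
  · rw [e2]
    have h1 := pr _ _ _ _ (by positivity) E0 F2
    have h2 := pr _ _ _ _ (by positivity) E1 F1
    have h3 := pr _ _ _ _ (by positivity) E2 F0
    have h4 := mul_le_mul_of_nonneg_left q2 hK2
    have h5 := mul_le_mul_of_nonneg_left q3 hK2
    refine (norm_add₃_le).trans ?_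
    nlinarith

/-- the scalar estimates; `u = √r1 ≤ U = √r2`, `s = √S` -/
theorem scal (u U s : ℝ) (hu : 1 ≤ u) (hU : u ≤ U) (hs : 0 < s) (hS : s ^ 2 ≤ 2 * U ^ 2) :
    (u ^ 2)⁻¹ * ((U ^ 2)⁻¹) ^ 2 * s ^ 2 ≤ 2 * (s * (u⁻¹) ^ 5) ∧
    ((u ^ 2)⁻¹) ^ 2 * (U ^ 2)⁻¹ ≤ 2 * (s⁻¹ * (u⁻¹) ^ 5) ∧
    ((u ^ 2)⁻¹) ^ 3 * (U ^ 2)⁻¹ ≤ 2 * ((s⁻¹) ^ 2 * (u⁻¹) ^ 5) := by
  have hu0 : 0 < u := by linarith
  have hU0 : 0 < U := by linarith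
  have hs2 : s ≤ 2 * U := by
    apply le_of_sq_le_sq
    · nlinarith
    · positivity
  refine ⟨?_, ?_, ?_⟩
  · rw [show (u ^ 2)⁻¹ * ((U ^ 2)⁻¹) ^ 2 * s ^ 2 = s ^ 2 / (u ^ 2 * U ^ 4) by field_simp,
      show 2 * (s * (u⁻¹) ^ 5) = 2 * s / u ^ 5 by field_simp, div_le_div_iff₀ (by positivity)
      (by positivity)]
    have h1 : u ^ 3 ≤ U ^ 3 := by gcongr
    calc s ^ 2 * u ^ 5 = s * u ^ 2 * (s * u ^ 3) := by ring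
      _ ≤ s * u ^ 2 * (2 * U * U ^ 3) := by gcongr
      _ = _ := by ring
  · rw [show ((u ^ 2)⁻¹) ^ 2 * (U ^ 2)⁻¹ = 1 / (u ^ 4 * U ^ 2) by field_simp,
      show 2 * (s⁻¹ * (u⁻¹) ^ 5) = 2 / (s * u ^ 5) by field_simp, div_le_div_iff₀ (by positivity)
      (by positivity)]
    calc 1 * (s * u ^ 5) = s * u * u ^ 4 := by ring
      _ ≤ 2 * U * U * u ^ 4 := by gcongr
      _ = _ := by ring
  · rw [show ((u ^ 2)⁻¹) ^ 3 * (U ^ 2)⁻¹ = 1 / (u ^ 6 * U ^ 2) by field_simp,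
      show 2 * ((s⁻¹) ^ 2 * (u⁻¹) ^ 5) = 2 / (s ^ 2 * u ^ 5) by field_simp,
      div_le_div_iff₀ (by positivity) (by positivity)]
    calc 1 * (s ^ 2 * u ^ 5) = s ^ 2 * 1 * u ^ 5 := by ring
      _ ≤ 2 * U ^ 2 * u * u ^ 5 := by gcongr
      _ = _ := by ring

theorem AB_bound (c : ℝ) (hc : 0 < c) (w : ℂ)
    (hk : ∀ k : ℤ × ℤ, c * rk k ≤ ‖KA w k‖ ∧ c * rk k ≤ ‖KB w k‖) (v : SV)
    (hv : |v.2| ≤ 2) (h0 : v.1 ≠ 0) (j : ℕ) (hj : j ≤ 2) :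
    ‖coeff j (As w v * Bs w v)‖ ≤ 12 * (c⁻¹ + 1) ^ 4 * ((rk v.1)⁻¹) ^ (j + 2) := by
  obtain ⟨h1, h2⟩ := hk v.1
  have hr := one_le_rk h0
  have hr0 : 0 < rk v.1 := by linarith
  have hcr : 0 < c * rk v.1 := by positivity
  have ha : ‖(KA w v.1)⁻¹‖ ≤ (c * rk v.1)⁻¹ := by
    rw [norm_inv]
    exact inv_anti₀ hcr h1
  have hb : ‖(KB w v.1)⁻¹‖ ≤ (c * rk v.1)⁻¹ := by
    rw [norm_inv]
    exact inv_anti₀ hcr h2
  have hα : ‖(v.2 : ℂ)‖ ≤ 2 := by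
    rw [Complex.norm_intCast]
    exact_mod_cast hv
  have := prod_bound _ _ _ _ ha hb hα j hj
  refine this.trans ?_
  rw [mul_inv, mul_pow, ← mul_assoc]
  refine mul_le_mul_of_nonneg_right ?_ (by positivity)
  refine mul_le_mul_of_nonneg_left ?_ (by norm_num)
  have hci : 0 < c⁻¹ := by positivity
  calc (c⁻¹) ^ (j + 2) ≤ (c⁻¹ + 1) ^ (j + 2) := by
        gcongr
        linarith
    _ ≤ (c⁻¹ + 1) ^ 4 := by
        apply pow_le_pow_right₀ (by linarith)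
        omega

/-- the main estimate, for `r1 ≤ r2` -/
theorem main (hA1 : EC237.A1) (c C1 : ℝ) (hc : 0 < c) (hC1 : 0 < C1) (w : ℂ) (hw : 0 < w.re)
    (hwC : ‖w‖ ≤ C1) (hk : ∀ k : ℤ × ℤ, c * rk k ≤ ‖KA w k‖ ∧ c * rk k ≤ ‖KB w k‖)
    (v1 v2 : SV) (hv1 : |v1.2| ≤ 1) (hv2 : |v2.2| ≤ 1) (h1 : v1.1 ≠ 0) (h2 : v2.1 ≠ 0)
    (h12 : v1.1 + v2.1 ≠ 0) (hle : rk v1.1 ≤ rk v2.1) :
    ‖coeff 0 (XX w v1 v2)‖ ≤ 28 * C1 * (12 * (c⁻¹ + 1) ^ 4) ^ 2 *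
      rk (v1.1 + v2.1) ^ (1 / 2 : ℝ) * pw v1.1 ∧
    ‖coeff 1 (XX w v1 v2)‖ ≤ 28 * C1 * (12 * (c⁻¹ + 1) ^ 4) ^ 2 *
      rk (v1.1 + v2.1) ^ (-(1 / 2) : ℝ) * pw v1.1 ∧
    ‖coeff 2 (XX w v1 v2)‖ ≤ 28 * C1 * (12 * (c⁻¹ + 1) ^ 4) ^ 2 *
      rk (v1.1 + v2.1) ^ (-1 : ℝ) * pw v1.1 := by
  set K : ℝ := 12 * (c⁻¹ + 1) ^ 4 with hKdef
  have hK0 : 0 < K := by positivity
  have r1 := one_le_rk h1
  have r2 := one_le_rk h2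
  have rs := one_le_rk h12
  have hS : rk (v1.1 + v2.1) ≤ 2 * rk v2.1 := by
    have := rk_add_le v1.1 v2.1
    linarith
  have p1 : 0 < rk v1.1 := by linarith
  have p2 : 0 < rk v2.1 := by linarith
  have ps : 0 < rk (v1.1 + v2.1) := by linarith
  obtain ⟨u2, -, -, upw, u0⟩ := rpow_facts (rk v1.1) p1
  obtain ⟨U2, -, -, -, U0⟩ := rpow_facts (rk v2.1) p2
  obtain ⟨s2, sm, sm1, -, s0⟩ := rpow_facts (rk (v1.1 + v2.1)) ps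
  have hpw : pw v1.1 = ((rk v1.1 ^ (1 / 2 : ℝ))⁻¹) ^ 5 := upw
  rw [hpw, sm, sm1]
  -- bounds of d0, d1
  have hcr1 : |(v1.1.1 : ℝ) * v2.1.2 - v1.1.2 * v2.1.1| ≤ rk v1.1 * rk v2.1 := cross _ _
  have hcr2 : |(v1.1.1 : ℝ) * v2.1.2 - v1.1.2 * v2.1.1| ≤ rk v1.1 * rk (v1.1 + v2.1) := by
    have := cross v1.1 (v1.1 + v2.1)
    have e : (v1.1.1 : ℝ) * v2.1.2 - v1.1.2 * v2.1.1 =
        (v1.1.1 : ℝ) * (v1.1 + v2.1).2 - v1.1.2 * (v1.1 + v2.1).1 := by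
      rw [Prod.snd_add, Prod.fst_add]
      push_cast
      ring
    rw [e]
    exact this
  have hd1 : |(v2.2 : ℝ) * v1.1.2 - v1.2 * v2.1.2| ≤ 2 * rk v2.1 := by
    have a1 : |(v1.2 : ℝ)| ≤ 1 := by exact_mod_cast hv1
    have a2 : |(v2.2 : ℝ)| ≤ 1 := by exact_mod_cast hv2
    have b1 := abs_snd_le v1.1
    have b2 := abs_snd_le v2.1
    calc |(v2.2 : ℝ) * v1.1.2 - v1.2 * v2.1.2| ≤ |(v2.2 : ℝ) * v1.1.2| + |(v1.2 : ℝ) * v2.1.2| :=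
          abs_sub _ _
      _ = |(v2.2 : ℝ)| * |(v1.1.2 : ℝ)| + |(v1.2 : ℝ)| * |(v2.1.2 : ℝ)| := by
          rw [abs_mul, abs_mul]
      _ ≤ 1 * rk v1.1 + 1 * rk v2.1 := by gcongr
      _ ≤ _ := by linarith
  set D0 : ℂ := 2 * Complex.I * w * ((v1.1.1 : ℂ) * v2.1.2 - v1.1.2 * v2.1.1) with hD0
  set D1 : ℂ := 2 * Complex.I * w * ((v2.2 : ℂ) * v1.1.2 - v1.2 * v2.1.2) with hD1
  have nD0 : ‖D0‖ = 2 * ‖w‖ * |(v1.1.1 : ℝ) * v2.1.2 - v1.1.2 * v2.1.1| := by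
    rw [hD0, norm_mul, norm_mul, norm_mul, Complex.norm_I]
    have : ((v1.1.1 : ℂ) * v2.1.2 - v1.1.2 * v2.1.1) =
        (((v1.1.1 : ℝ) * v2.1.2 - v1.1.2 * v2.1.1 : ℝ) : ℂ) := by push_cast; ring
    rw [this, Complex.norm_real, Real.norm_eq_abs]
    norm_num
  have nD1 : ‖D1‖ = 2 * ‖w‖ * |(v2.2 : ℝ) * v1.1.2 - v1.2 * v2.1.2| := by
    rw [hD1, norm_mul, norm_mul, norm_mul, Complex.norm_I]
    have : ((v2.2 : ℂ) * v1.1.2 - v1.2 * v2.1.2) =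
        (((v2.2 : ℝ) * v1.1.2 - v1.2 * v2.1.2 : ℝ) : ℂ) := by push_cast; ring
    rw [this, Complex.norm_real, Real.norm_eq_abs]
    norm_num
  have bD0a : ‖D0‖ ≤ 2 * C1 * (rk v1.1 * rk v2.1) := by
    rw [nD0]
    gcongr
  have bD0b : ‖D0‖ ≤ 2 * C1 * (rk v1.1 * rk (v1.1 + v2.1)) := by
    rw [nD0]
    gcongr
  have bD1 : ‖D1‖ ≤ 2 * C1 * (2 * rk v2.1) := by
    rw [nD1]
    gcongr
  -- bounds of G
  have hG := G_bound (As w v1 * Bs w v1) (As w v2 * Bs w v2) K (rk v1.1)⁻¹ (rk v2.1)⁻¹ hK0.le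
    (by positivity) (inv_anti₀ p1 hle)
    (fun j hj => AB_bound c hc w hk v1 (hv1.trans (by norm_num)) h1 j hj)
    (fun j hj => AB_bound c hc w hk v2 (hv2.trans (by norm_num)) h2 j hj)
  obtain ⟨g0, g1, g2⟩ := hG
  rw [XX_eq hA1 w hw v1 v2 h1 h2]
  set G := As w v1 * Bs w v1 * (As w v2 * Bs w v2) with hGdef
  obtain ⟨e0, e1, e2⟩ := coeff_GD G D0 D1
  rw [e0, e1, e2]
  have hu1 : 1 ≤ rk v1.1 ^ (1 / 2 : ℝ) := Real.one_le_rpow r1 (by norm_num)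
  have huU : rk v1.1 ^ (1 / 2 : ℝ) ≤ rk v2.1 ^ (1 / 2 : ℝ) :=
    Real.rpow_le_rpow p1.le hle (by norm_num)
  have hsU : (rk (v1.1 + v2.1) ^ (1 / 2 : ℝ)) ^ 2 ≤ 2 * (rk v2.1 ^ (1 / 2 : ℝ)) ^ 2 := by
    rw [s2, U2]
    exact hS
  obtain ⟨k0, k1, k2⟩ := scal _ _ _ hu1 huU s0 hsU
  rw [u2, U2] at k0 k1 k2
  rw [s2] at k0
  set s := rk (v1.1 + v2.1) ^ (1 / 2 : ℝ) with hs
  set u := rk v1.1 ^ (1 / 2 : ℝ) with hu
  set S := rk (v1.1 + v2.1)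
  set x := rk v1.1
  set y := rk v2.1
  have hK2 : 0 < K ^ 2 := by positivity
  refine ⟨?_, ?_, ?_⟩
  · rw [norm_mul]
    calc ‖coeff 0 G‖ * ‖D0‖ ≤ K ^ 2 * (x⁻¹ ^ 2 * y⁻¹ ^ 2) * (2 * C1 * (x * S)) := by
          gcongr
      _ = 2 * C1 * K ^ 2 * (x⁻¹ * y⁻¹ ^ 2 * S) := by
          field_simp
      _ ≤ 2 * C1 * K ^ 2 * (2 * (s * u⁻¹ ^ 5)) := by
          gcongr
      _ ≤ 28 * C1 * K ^ 2 * s * u⁻¹ ^ 5 := by
          have : 0 ≤ C1 * K ^ 2 * (s * u⁻¹ ^ 5) := by positivity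
          nlinarith
  · calc ‖coeff 1 G * D0 + coeff 0 G * D1‖ ≤ ‖coeff 1 G‖ * ‖D0‖ + ‖coeff 0 G‖ * ‖D1‖ := by
          exact (norm_add_le _ _).trans (le_of_eq (congrArg₂ _ (norm_mul _ _) (norm_mul _ _)))
      _ ≤ 2 * K ^ 2 * (x⁻¹ ^ 3 * y⁻¹ ^ 2) * (2 * C1 * (x * y)) +
          K ^ 2 * (x⁻¹ ^ 2 * y⁻¹ ^ 2) * (2 * C1 * (2 * y)) := by
          gcongr
      _ = 8 * C1 * K ^ 2 * (x⁻¹ ^ 2 * y⁻¹) := by
          field_simp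
          ring
      _ ≤ 8 * C1 * K ^ 2 * (2 * (s⁻¹ * u⁻¹ ^ 5)) := by
          gcongr
      _ ≤ 28 * C1 * K ^ 2 * s⁻¹ * u⁻¹ ^ 5 := by
          have : 0 ≤ C1 * K ^ 2 * (s⁻¹ * u⁻¹ ^ 5) := by positivity
          nlinarith
  · calc ‖coeff 2 G * D0 + coeff 1 G * D1‖ ≤ ‖coeff 2 G‖ * ‖D0‖ + ‖coeff 1 G‖ * ‖D1‖ := by
          exact (norm_add_le _ _).trans (le_of_eq (congrArg₂ _ (norm_mul _ _) (norm_mul _ _)))
      _ ≤ 3 * K ^ 2 * (x⁻¹ ^ 4 * y⁻¹ ^ 2) * (2 * C1 * (x * y)) +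
          2 * K ^ 2 * (x⁻¹ ^ 3 * y⁻¹ ^ 2) * (2 * C1 * (2 * y)) := by
          gcongr
      _ = 14 * C1 * K ^ 2 * (x⁻¹ ^ 3 * y⁻¹) := by
          field_simp
          ring
      _ ≤ 14 * C1 * K ^ 2 * (2 * (s⁻¹ ^ 2 * u⁻¹ ^ 5)) := by
          gcongr
      _ = 28 * C1 * K ^ 2 * s⁻¹ ^ 2 * u⁻¹ ^ 5 := by
          ring

theorem pw_nonneg (k : ℤ × ℤ) : 0 ≤ pw k := by
  unfold pw rk
  positivity

/-- packet B2 -/
theorem thm (hA1 : EC237.A1) (hB1 : EC237.B1) : EC237.B2 := by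
  intro y0 hy0
  obtain ⟨c, C1, hc, hC1, hB⟩ := hB1 y0 hy0
  set K : ℝ := 12 * (c⁻¹ + 1) ^ 4 with hKdef
  have hK0 : 0 < K := by positivity
  refine ⟨28 * C1 * K ^ 2 + K, by positivity, ?_⟩
  intro w hwB
  obtain ⟨hw, hwC, hk⟩ := hB w hwB
  have hk' : ∀ k : ℤ × ℤ, c * rk k ≤ ‖KA w k‖ ∧ c * rk k ≤ ‖KB w k‖ :=
    fun k => ⟨(hk k).1, (hk k).2.2.1⟩
  constructor
  · intro v1 v2 hv1 hv2 h1 h2 h12
    have aux : ∀ (a b p q : ℝ), 0 ≤ b → 0 ≤ p → 0 ≤ q → a ≤ 28 * C1 * K ^ 2 * b * p →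
        a ≤ (28 * C1 * K ^ 2 + K) * b * (p + q) := by
      intro a b p q hb hp hq h
      have t1 : 0 ≤ K * (b * p) := by positivity
      have t2 : 0 ≤ (28 * C1 * K ^ 2 + K) * (b * q) := by positivity
      nlinarith
    have hrn : 0 ≤ rk (v1.1 + v2.1) := Real.sqrt_nonneg _
    rcases le_total (rk v1.1) (rk v2.1) with hle | hle
    · obtain ⟨m0, m1, m2⟩ := main hA1 c C1 hc hC1 w hw hwC hk' v1 v2 hv1 hv2 h1 h2 h12 hle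
      exact ⟨aux _ _ _ _ (by positivity) (pw_nonneg _) (pw_nonneg _) m0,
        aux _ _ _ _ (by positivity) (pw_nonneg _) (pw_nonneg _) m1,
        aux _ _ _ _ (by positivity) (pw_nonneg _) (pw_nonneg _) m2⟩
    · have h21 : v2.1 + v1.1 ≠ 0 := by rwa [add_comm]
      obtain ⟨m0, m1, m2⟩ := main hA1 c C1 hc hC1 w hw hwC hk' v2 v1 hv2 hv1 h2 h1 h21 hle
      rw [XX_symm w v1 v2, map_neg, norm_neg, add_comm v2.1 v1.1] at m0 m1 m2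
      rw [add_comm (pw v1.1) (pw v2.1)]
      exact ⟨aux _ _ _ _ (by positivity) (pw_nonneg _) (pw_nonneg _) m0,
        aux _ _ _ _ (by positivity) (pw_nonneg _) (pw_nonneg _) m1,
        aux _ _ _ _ (by positivity) (pw_nonneg _) (pw_nonneg _) m2⟩
  · intro v hv h0 j hj
    have h := AB_bound c hc w hk' v hv h0 j hj
    have hr := one_le_rk h0
    have e : rk v.1 ^ (-(2 + (j : ℝ))) = ((rk v.1)⁻¹) ^ (j + 2) := by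
      rw [Real.rpow_neg (by linarith), inv_pow, ← Real.rpow_natCast]
      congr 2
      push_cast
      ring
    rw [e]
    refine h.trans ?_
    have hr0 : 0 < rk v.1 := by linarith
    have : 0 ≤ 28 * C1 * K ^ 2 * ((rk v.1)⁻¹) ^ (j + 2) := by positivity
    nlinarith

end Pool.Agent.Helper39.EC.D_B2
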